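import Mathlib

/-!
# A compact space with a Baire-measurable measure outside the sequential closure of Diracs

Combinatorial part: the filter `Fnw` of sets with nowhere dense complement in the tree of finite
sequences, the algebra `Meas` of subsets of `T = S × ℤ` whose sections converge almost everywhere
along `Fnw`.
-/

namespace Pool.Agent.R282.NW

open MeasureTheory Filter Topology Set

/-- Finite sequences of natural numbers; `t` extends `s` if `s` is a final segment of `t`. -/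
abbrev S := List ℕ

/-- The countable index set. -/
abbrev T := S × ℤ

/-- The filter of sets containing a dense open subset of the tree `S`. -/
def Fnw : Filter S where
  sets := {M | ∀ s : S, ∃ t : S, s <:+ t ∧ ∀ u : S, t <:+ u → u ∈ M}
  univ_sets := fun s => ⟨s, List.suffix_rfl, fun _ _ => mem_univ _⟩
  sets_of_superset := fun {M N} hM hMN s => by
    obtain ⟨t, h1, h2⟩ := hM s
    exact ⟨t, h1, fun u hu => hMN (h2 u hu)⟩
  inter_sets := fun {M N} hM hN s => by
    obtain ⟨t, h1, h2⟩ := hM s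
    obtain ⟨t', h3, h4⟩ := hN t
    exact ⟨t', h1.trans h3, fun u hu => ⟨h2 u (h3.trans hu), h4 u hu⟩⟩

theorem mem_Fnw {M : Set S} :
    M ∈ Fnw ↔ ∀ s : S, ∃ t : S, s <:+ t ∧ ∀ u : S, t <:+ u → u ∈ M := Iff.rfl

theorem ev_Fnw {p : S → Prop} :
    (∀ᶠ s in Fnw, p s) ↔ ∀ s : S, ∃ t : S, s <:+ t ∧ ∀ u : S, t <:+ u → p u := Iff.rfl

instance : Fnw.NeBot := by
  refine ⟨fun h => ?_⟩
  have h0 : (∅ : Set S) ∈ Fnw := by rw [h]; exact mem_bot
  obtain ⟨t, _, ht⟩ := mem_Fnw.mp h0 []
  exact (ht t List.suffix_rfl)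

/-- The level of a node. -/
def lev (s : S) : ℕ := Encodable.encode s

theorem ev_lev (n : ℕ) : ∀ᶠ s in Fnw, n ≤ lev s := by
  rw [ev_Fnw]
  intro s
  have hfin : {u : S | lev u < n}.Finite :=
    Set.Finite.preimage (Encodable.encode_injective.injOn) (Set.finite_Iio n)
  obtain ⟨L, hL⟩ := Infinite.exists_notMem_finset (hfin.toFinset.biUnion fun u => u.toFinset)
  refine ⟨L :: s, List.suffix_cons _ _, fun u hu => ?_⟩
  by_contra hc
  push Not at hc
  apply hL
  rw [Finset.mem_biUnion]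
  refine ⟨u, by simpa using hc, ?_⟩
  rw [List.mem_toFinset]
  exact hu.subset (List.mem_cons_self)

theorem tendsto_lev : Tendsto lev Fnw atTop :=
  tendsto_atTop.mpr ev_lev

/-- The dyadic index of `x` at node `s`. -/
noncomputable def idx (s : S) (x : ℝ) : ℤ := ⌊(2 : ℝ) ^ lev s * x⌋

/-- The point of `T` visited by `x` at node `s`. -/
noncomputable def pos (s : S) (x : ℝ) : T := (s, idx s x)

/-- The left end point of the dyadic interval coded by `p`. -/
noncomputable def left (p : T) : ℝ := (p.2 : ℝ) / 2 ^ lev p.1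

/-- The right end point. -/
noncomputable def right (p : T) : ℝ := ((p.2 : ℝ) + 1) / 2 ^ lev p.1

theorem left_le (s : S) (x : ℝ) : left (pos s x) ≤ x := by
  unfold left pos idx
  rw [div_le_iff₀ (by positivity)]
  have := Int.floor_le ((2 : ℝ) ^ lev s * x)
  linarith [mul_comm x ((2 : ℝ) ^ lev s)]

theorem le_right (s : S) (x : ℝ) : x ≤ right (pos s x) := by
  unfold right pos idx
  rw [le_div_iff₀ (by positivity)]
  have := Int.lt_floor_add_one ((2 : ℝ) ^ lev s * x)
  linarith [mul_comm x ((2 : ℝ) ^ lev s)]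

theorem right_eq (p : T) : right p = left p + (1 / 2) ^ lev p.1 := by
  unfold right left
  rw [add_div, one_div_pow]

theorem tendsto_pow_lev : Tendsto (fun s : S => ((1 : ℝ) / 2) ^ lev s) Fnw (𝓝 0) :=
  (tendsto_pow_atTop_nhds_zero_of_lt_one (by norm_num) (by norm_num)).comp tendsto_lev

theorem tendsto_left (x : ℝ) : Tendsto (fun s => left (pos s x)) Fnw (𝓝 x) := by
  have h1 : Tendsto (fun s : S => x - ((1 : ℝ) / 2) ^ lev s) Fnw (𝓝 x) := by
    simpa using (tendsto_const_nhds (x := x)).sub tendsto_pow_lev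
  refine tendsto_of_tendsto_of_tendsto_of_le_of_le h1 tendsto_const_nhds (fun s => ?_)
    (fun s => left_le s x)
  have h2 := le_right s x
  rw [right_eq] at h2
  simp only [pos] at h2 ⊢
  linarith

theorem tendsto_right (x : ℝ) : Tendsto (fun s => right (pos s x)) Fnw (𝓝 x) := by
  have h1 : Tendsto (fun s : S => x + ((1 : ℝ) / 2) ^ lev s) Fnw (𝓝 x) := by
    simpa using (tendsto_const_nhds (x := x)).add tendsto_pow_lev
  refine tendsto_of_tendsto_of_tendsto_of_le_of_le tendsto_const_nhds h1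
    (fun s => le_right s x) (fun s => ?_)
  have h2 := left_le s x
  have h3 := right_eq (pos s x)
  simp only [pos] at h2 h3 ⊢
  linarith

/-- Lebesgue measure on `[0,1]`. -/
noncomputable def lam : Measure ℝ := volume.restrict (Icc 0 1)

instance : IsProbabilityMeasure lam := ⟨by simp [lam]⟩

/-- The set of points which are eventually in `A`. -/
def Ev (A : Set T) : Set ℝ := {x | ∀ᶠ s in Fnw, pos s x ∈ A}

theorem mem_Ev {A : Set T} {x : ℝ} : x ∈ Ev A ↔ ∀ᶠ s in Fnw, pos s x ∈ A := Iff.rfl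

/-- The algebra of sets. -/
def Meas (A : Set T) : Prop := ∀ᵐ x ∂lam, x ∈ Ev A ∨ x ∈ Ev Aᶜ

/-- The null sets. -/
def Null (A : Set T) : Prop := ∀ᵐ x ∂lam, x ∈ Ev Aᶜ

theorem Null.meas {A : Set T} (h : Null A) : Meas A := by
  have h' : ∀ᵐ x ∂lam, x ∈ Ev Aᶜ := h
  exact h'.mono fun _ hx => Or.inr hx

theorem Ev_mono {A B : Set T} (h : A ⊆ B) : Ev A ⊆ Ev B :=
  fun _ hx => (mem_Ev.mp hx).mono fun _ hs => h hs

theorem Null.mono {A B : Set T} (h : Null A) (hB : B ⊆ A) : Null B := by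
  have h' : ∀ᵐ x ∂lam, x ∈ Ev Aᶜ := h
  exact h'.mono fun _ hx => Ev_mono (compl_subset_compl.mpr hB) hx

theorem Ev_inter {A B : Set T} {x : ℝ} (hA : x ∈ Ev A) (hB : x ∈ Ev B) : x ∈ Ev (A ∩ B) := by
  have hA' : ∀ᶠ s in Fnw, pos s x ∈ A := hA
  have hB' : ∀ᶠ s in Fnw, pos s x ∈ B := hB
  exact hA'.and hB'

theorem Ev_disj {A : Set T} {x : ℝ} (hA : x ∈ Ev A) (hB : x ∈ Ev Aᶜ) : False := by
  have h1 : ∀ᶠ s in Fnw, pos s x ∈ A := hA
  have h2 : ∀ᶠ s in Fnw, pos s x ∈ Aᶜ := hB
  obtain ⟨s, hs, hs'⟩ := (h1.and h2).exists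
  exact hs' hs

theorem Meas.compl {A : Set T} (h : Meas A) : Meas Aᶜ := by
  refine h.mono fun x hx => ?_
  rw [compl_compl]
  exact hx.symm

theorem Meas.union {A B : Set T} (hA : Meas A) (hB : Meas B) : Meas (A ∪ B) := by
  filter_upwards [hA, hB] with x h1 h2
  rcases h1 with h1 | h1
  · exact Or.inl (Ev_mono subset_union_left h1)
  · rcases h2 with h2 | h2
    · exact Or.inl (Ev_mono subset_union_right h2)
    · right
      rw [compl_union]
      exact Ev_inter h1 h2

theorem Meas.inter {A B : Set T} (hA : Meas A) (hB : Meas B) : Meas (A ∩ B) := by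
  have := (hA.compl.union hB.compl).compl
  rwa [compl_union, compl_compl, compl_compl] at this

theorem meas_univ : Meas univ := by
  refine Filter.Eventually.of_forall fun x => Or.inl ?_
  exact mem_Ev.mpr (Filter.Eventually.of_forall fun s => mem_univ _)

/-- The set coding an open set `U`. -/
def code (U : Set ℝ) : Set T := {p | Icc (left p) (right p) ⊆ U}

theorem ev_code {U : Set ℝ} (hU : IsOpen U) {x : ℝ} (hx : x ∈ U) : x ∈ Ev (code U) := by
  obtain ⟨δ, hδ, hball⟩ := Metric.isOpen_iff.mp hU x hx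
  have h1 : ∀ᶠ s in Fnw, x - δ < left (pos s x) :=
    (tendsto_left x).eventually (lt_mem_nhds (by linarith))
  have h2 : ∀ᶠ s in Fnw, right (pos s x) < x + δ :=
    (tendsto_right x).eventually (gt_mem_nhds (by linarith))
  have h3 : ∀ᶠ s in Fnw, pos s x ∈ code U := by
    filter_upwards [h1, h2] with s hs1 hs2 y hy
    apply hball
    rw [Metric.mem_ball, Real.dist_eq, abs_lt]
    constructor <;> linarith [hy.1, hy.2]
  exact h3

theorem not_mem_code {U : Set ℝ} {x : ℝ} (hx : x ∉ U) (s : S) : pos s x ∉ code U :=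
  fun h => hx (h ⟨left_le s x, le_right s x⟩)

theorem ev_code_compl {U : Set ℝ} {x : ℝ} (hx : x ∉ U) : x ∈ Ev (code U)ᶜ :=
  mem_Ev.mpr (Filter.Eventually.of_forall fun s => not_mem_code hx s)

theorem meas_code {U : Set ℝ} (hU : IsOpen U) : Meas (code U) := by
  refine Filter.Eventually.of_forall fun x => ?_
  by_cases hx : x ∈ U
  · exact Or.inl (ev_code hU hx)
  · exact Or.inr (ev_code_compl hx)

/-- The set of codes whose left end point lies in `J`. -/
def lset (J : Set ℝ) : Set T := {p | left p ∈ J}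

theorem ev_lset_int {J : Set ℝ} {x : ℝ} (hx : x ∈ interior J) : x ∈ Ev (lset J) := by
  have h := (tendsto_left x).eventually (mem_interior_iff_mem_nhds.mp hx)
  exact h

theorem lset_compl (J : Set ℝ) : (lset J)ᶜ = lset Jᶜ := rfl

theorem meas_lset {J : Set ℝ} (hJ : lam (frontier J) = 0) : Meas (lset J) := by
  have h : ∀ᵐ x ∂lam, x ∉ frontier J := measure_eq_zero_iff_ae_notMem.mp hJ
  refine h.mono fun x hx => ?_
  by_cases h1 : x ∈ interior J
  · exact Or.inl (ev_lset_int h1)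
  · right
    rw [lset_compl]
    apply ev_lset_int
    rw [interior_compl]
    intro h2
    exact hx ⟨h2, h1⟩

theorem Ev_lset_subset (J : Set ℝ) : Ev (lset J) ⊆ closure J := by
  intro x hx
  have h : ∀ᶠ s in Fnw, left (pos s x) ∈ J := hx
  exact mem_closure_of_tendsto (tendsto_left x) h

/-- The cone above the node `t`. -/
def cone (t : S) : Set T := {p | t <:+ p.1}

theorem cone_disj {l l' : ℕ} (h : l ≠ l') (s : S) : Disjoint (cone (l :: s)) (cone (l' :: s)) := by
  rw [Set.disjoint_left]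
  intro p hp hp'
  have h1 : l :: s <:+ p.1 := hp
  have h2 : l' :: s <:+ p.1 := hp'
  have h3 : l :: s <:+ l' :: s := List.suffix_of_suffix_length_le h1 h2 (by simp)
  have h4 := h3.eq_of_length (by simp)
  exact h (by simpa using (List.cons.inj h4).1)

/-- Enumeration of the nodes. -/
def nd (i : ℕ) : S := ((Encodable.decode i : Option S)).getD []

theorem nd_encode (s : S) : nd (Encodable.encode s) = s := by
  simp [nd]

theorem sum_half (n : ℕ) : ∑ i ∈ Finset.range n, ((1 : ℝ) / 2 ^ (i + 1)) ≤ 1 := by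
  have h := sum_geometric_two_le n
  have h2 : ∑ i ∈ Finset.range n, ((1 : ℝ) / 2 ^ (i + 1))
      = (1 / 2) * ∑ i ∈ Finset.range n, ((1 : ℝ) / 2) ^ i := by
    rw [Finset.mul_sum]
    refine Finset.sum_congr rfl fun i _ => ?_
    rw [one_div_pow, pow_succ]
    field_simp
  rw [h2]
  linarith

/-- **Diagonal lemma**: the ideal `Null` catches sequences of submeasures. -/
theorem diag (I : ℕ → Set T) (hI : ∀ k, Null (I k)) (m : ℕ → Set T → ℝ)
    (hmono : ∀ k A B, A ⊆ B → m k A ≤ m k B)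
    (hsub : ∀ k A B, m k (A ∪ B) ≤ m k A + m k B)
    (hempty : ∀ k, m k ∅ = 0)
    (hloc : ∀ k A, m k A ≤ m k (I k ∩ A))
    (hdisj : ∀ k (n : ℕ) (C : ℕ → Set T), (∀ i j, i ≠ j → Disjoint (C i) (C j)) →
      ∑ l ∈ Finset.range n, m k (C l) ≤ 1)
    (ε : ℝ) (hε : 0 < ε) :
    ∃ φ : ℕ → ℕ, StrictMono φ ∧ ∃ B : Set T, Null B ∧ ∀ j, m (φ j) Bᶜ ≤ ε := by
  have hsmall : ∀ i k, ∃ l, l < ⌈2 ^ (i + 1) / ε⌉₊ + 1 ∧
      m k (cone (l :: nd i)) ≤ ε * (1 / 2 ^ (i + 1)) := by
    intro i k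
    by_contra hc
    push Not at hc
    set N := ⌈2 ^ (i + 1) / ε⌉₊ + 1 with hN
    have h1 := hdisj k N (fun l => cone (l :: nd i)) (fun a b hab => cone_disj hab _)
    have h2 : ∑ l ∈ Finset.range N, ε * (1 / 2 ^ (i + 1))
        < ∑ l ∈ Finset.range N, m k (cone (l :: nd i)) :=
      Finset.sum_lt_sum_of_nonempty (by rw [hN]; simp)
        (fun l hl => hc l (Finset.mem_range.mp hl))
    rw [Finset.sum_const, Finset.card_range, nsmul_eq_mul] at h2
    have h3 : (2 : ℝ) ^ (i + 1) / ε ≤ N := by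
      rw [hN]
      push_cast
      have := Nat.le_ceil ((2 : ℝ) ^ (i + 1) / ε)
      linarith
    have h4 : (1 : ℝ) ≤ N * (ε * (1 / 2 ^ (i + 1))) := by
      calc (1 : ℝ) = (2 ^ (i + 1) / ε) * (ε * (1 / 2 ^ (i + 1))) := by field_simp
        _ ≤ N * (ε * (1 / 2 ^ (i + 1))) := mul_le_mul_of_nonneg_right h3 (by positivity)
    linarith
  choose L hL hm using hsmall
  have hU : ∀ i, ∃ l, ∀ᶠ k in (hyperfilter ℕ : Filter ℕ), L i k = l := by
    intro i
    have h1 : Set.Iio (⌈2 ^ (i + 1) / ε⌉₊ + 1) ∈ (hyperfilter ℕ).map (L i) := by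
      rw [Ultrafilter.mem_map]
      have : L i ⁻¹' Set.Iio (⌈2 ^ (i + 1) / ε⌉₊ + 1) = univ := by
        ext k; simpa using hL i k
      rw [this]
      exact univ_mem
    obtain ⟨l, _, hl⟩ := Ultrafilter.eq_pure_of_finite_mem (Set.finite_Iio _) h1
    refine ⟨l, ?_⟩
    have h2 : ({l} : Set ℕ) ∈ (hyperfilter ℕ).map (L i) := by
      rw [hl]; exact Ultrafilter.mem_pure.mpr rfl
    exact h2
  choose l hl using hU
  have hfreq : ∀ j, ∃ᶠ k in atTop, ∀ i ∈ Set.Iic j, L i k = l i := by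
    intro j
    have h1 : ∀ᶠ k in (hyperfilter ℕ : Filter ℕ), ∀ i ∈ Set.Iic j, L i k = l i :=
      (Filter.eventually_all_finite (Set.finite_Iic j)).mpr fun i _ => hl i
    exact h1.frequently.filter_mono Nat.hyperfilter_le_atTop
  obtain ⟨φ, hφ, hP⟩ := extraction_forall_of_frequently hfreq
  refine ⟨φ, hφ, ⋃ j, (I (φ j) \ ⋃ i ∈ Finset.range (j + 1), cone (l i :: nd i)), ?_, ?_⟩
  · have hall : ∀ᵐ x ∂lam, ∀ j, x ∈ Ev (I (φ j))ᶜ := ae_all_iff.mpr fun j => hI (φ j)
    refine hall.mono fun x hx => ?_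
    rw [mem_Ev, ev_Fnw]
    intro s
    set i := Encodable.encode s with hi
    have hs : nd i = s := nd_encode s
    have h1 : ∀ᶠ u in Fnw, ∀ j ∈ Set.Iio i, pos u x ∈ (I (φ j))ᶜ :=
      (Filter.eventually_all_finite (Set.finite_Iio i)).mpr fun j _ => hx j
    obtain ⟨t, ht1, ht2⟩ := ev_Fnw.mp h1 (l i :: nd i)
    refine ⟨t, ?_, fun u hu => ?_⟩
    · rw [hs] at ht1
      exact (List.suffix_cons _ _).trans ht1
    · rw [mem_compl_iff, mem_iUnion]
      rintro ⟨j, hj1, hj2⟩
      by_cases hji : j < i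
      · exact ht2 u hu j hji hj1
      · apply hj2
        rw [mem_iUnion₂]
        exact ⟨i, Finset.mem_range.mpr (by omega), (ht1.trans hu : l i :: nd i <:+ u)⟩
  · intro j
    set F := ⋃ i ∈ Finset.range (j + 1), cone (l i :: nd i) with hF
    have hfin : ∀ n, m (φ j) (⋃ i ∈ Finset.range n, cone (l i :: nd i)) ≤
        ∑ i ∈ Finset.range n, m (φ j) (cone (l i :: nd i)) := by
      intro n
      induction n with
      | zero => simp [hempty]
      | succ n ih =>
        rw [Finset.range_add_one, Finset.set_biUnion_insert, Finset.sum_insert (by simp)]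
        exact (hsub _ _ _).trans (by linarith)
    calc m (φ j) (⋃ j, (I (φ j) \ ⋃ i ∈ Finset.range (j + 1), cone (l i :: nd i)))ᶜ
        ≤ m (φ j) (I (φ j) ∩ (⋃ j, (I (φ j) \ ⋃ i ∈ Finset.range (j + 1),
            cone (l i :: nd i)))ᶜ) := hloc _ _
      _ ≤ m (φ j) F := by
          apply hmono
          rintro p ⟨hp1, hp2⟩
          by_contra hc
          apply hp2
          rw [mem_iUnion]
          exact ⟨j, hp1, hc⟩
      _ ≤ ∑ i ∈ Finset.range (j + 1), m (φ j) (cone (l i :: nd i)) := hfin _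
      _ ≤ ∑ i ∈ Finset.range (j + 1), ε * (1 / 2 ^ (i + 1)) := by
          refine Finset.sum_le_sum fun i hi => ?_
          have h1 := hP j i (by simpa [Nat.lt_succ_iff] using hi)
          have h2 := hm i (φ j)
          rwa [h1] at h2
      _ ≤ ε := by
          rw [← Finset.mul_sum]
          calc ε * _ ≤ ε * 1 := mul_le_mul_of_nonneg_left (sum_half _) hε.le
            _ = ε := mul_one _

end Pool.Agent.R282.NW
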