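import Mathlib
import Pool.Agent.R282.NW

/-!
# The compact space `K` and the class of singular functionals
-/

namespace Pool.Agent.R282.NW

open MeasureTheory Filter Topology Set

/-- The algebra. -/
abbrev Alg := {A : Set T // Meas A}

/-- Complement in the algebra. -/
def cpl (A : Alg) : Alg := ⟨A.1ᶜ, A.2.compl⟩

open Classical in
/-- The point of the product coded by `p`. -/
noncomputable def ept (p : T) : Alg → Bool := fun A => decide (p ∈ A.1)

/-- The compact space: the Stone space of the algebra `Alg`. -/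
abbrev K : Type := closure (range ept)

instance : CompactSpace K := isCompact_iff_compactSpace.mp isClosed_closure.isCompact

/-- The isolated points of `K`. -/
noncomputable def pt (p : T) : K := ⟨ept p, subset_closure (mem_range_self p)⟩

theorem dense_pt : DenseRange pt := by
  have h : Dense (range pt) := by
    rw [Subtype.dense_iff]
    have : (Subtype.val '' range pt : Set (Alg → Bool)) = range ept := by
      rw [← range_comp]; rfl
    rw [this]
  exact h

/-- The characteristic function of the clopen set coded by `A`. -/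
noncomputable def chi (A : Alg) : C(K, ℝ) where
  toFun := fun φ => if φ.1 A then 1 else 0
  continuous_toFun := by
    have h1 : Continuous fun φ : K => φ.1 A := (continuous_apply A).comp continuous_subtype_val
    have h2 : Continuous fun b : Bool => if b then (1 : ℝ) else 0 := continuous_of_discreteTopology
    exact h2.comp h1

open Classical in
theorem chi_pt (A : Alg) (p : T) : chi A (pt p) = if p ∈ A.1 then 1 else 0 := by
  simp [chi, pt, ept]

theorem chi_apply (A : Alg) (φ : K) : chi A φ = if φ.1 A then 1 else 0 := rfl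

theorem chi_nonneg (A : Alg) : 0 ≤ chi A := by
  intro φ
  change (0 : ℝ) ≤ if φ.1 A then 1 else 0
  split_ifs <;> simp

theorem dense_le {f g : C(K, ℝ)} (h : ∀ p, f (pt p) ≤ g (pt p)) : f ≤ g := by
  intro φ
  have h1 : IsClosed {φ : K | f φ ≤ g φ} := isClosed_le f.continuous g.continuous
  exact dense_pt.induction_on φ h1 h

theorem chi_pt_nonneg (A : Alg) (p : T) : 0 ≤ chi A (pt p) := chi_nonneg A (pt p)

theorem chi_pt_mem {A : Alg} {p : T} (h : p ∈ A.1) : chi A (pt p) = 1 := by
  rw [chi_pt, if_pos h]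

theorem chi_pt_notMem {A : Alg} {p : T} (h : p ∉ A.1) : chi A (pt p) = 0 := by
  rw [chi_pt, if_neg h]

theorem chi_le_add {A B C : Alg} (h : A.1 ⊆ B.1 ∪ C.1) : chi A ≤ chi B + chi C := by
  refine dense_le fun p => ?_
  rw [ContinuousMap.add_apply]
  have h1 := chi_pt_nonneg B p
  have h2 := chi_pt_nonneg C p
  by_cases hp : p ∈ A.1
  · rw [chi_pt_mem hp]
    rcases h hp with h3 | h3
    · rw [chi_pt_mem h3]; linarith
    · rw [chi_pt_mem h3]; linarith
  · rw [chi_pt_notMem hp]; linarith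

theorem chi_mono {A B : Alg} (h : A.1 ⊆ B.1) : chi A ≤ chi B := by
  refine dense_le fun p => ?_
  by_cases hp : p ∈ A.1
  · rw [chi_pt_mem hp, chi_pt_mem (h hp)]
  · rw [chi_pt_notMem hp]; exact chi_pt_nonneg B p

/-- Positive normalized linear functionals. -/
structure Pos (ν : C(K, ℝ) → ℝ) : Prop where
  add : ∀ f g, ν (f + g) = ν f + ν g
  smul : ∀ (c : ℝ) f, ν (c • f) = c * ν f
  nonneg : ∀ f, 0 ≤ f → 0 ≤ ν f
  one : ν 1 = 1

/-- The linear map. -/
def Pos.lin {ν : C(K, ℝ) → ℝ} (h : Pos ν) : C(K, ℝ) →ₗ[ℝ] ℝ where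
  toFun := ν
  map_add' := h.add
  map_smul' := h.smul

theorem Pos.mono {ν : C(K, ℝ) → ℝ} (h : Pos ν) {f g : C(K, ℝ)} (hfg : f ≤ g) :
    ν f ≤ ν g := by
  have h1 := h.nonneg (g - f) (sub_nonneg.mpr hfg)
  have h2 : ν (g - f) = ν g - ν f := map_sub h.lin g f
  rw [h2] at h1
  linarith

/-- The functionals which are singular with respect to the limit measure. -/
def Sing : Set (C(K, ℝ) → ℝ) :=
  {ν | Pos ν ∧ ∀ ε : ℝ, 0 < ε → ∃ A : Alg, lam (Ev A.1) < ENNReal.ofReal ε ∧ ν (chi (cpl A)) < ε}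

theorem Ev_union_code {U : Set ℝ} {B : Set T} (hB : Null B) :
    lam (Ev (code U ∪ B)) ≤ lam U := by
  apply measure_mono_ae
  have hB' : ∀ᵐ x ∂lam, x ∈ Ev Bᶜ := hB
  filter_upwards [hB'] with x hx hx1
  by_contra hxU
  have h1 : x ∈ Ev ((code U)ᶜ ∩ Bᶜ) := Ev_inter (ev_code_compl hxU) hx
  rw [← compl_union] at h1
  exact Ev_disj hx1 h1

theorem sing_seqClosed : IsSeqClosed Sing := by
  intro ν ν₀ hν hlim
  have hev : ∀ f : C(K, ℝ), Tendsto (fun n => ν n f) atTop (𝓝 (ν₀ f)) := fun f =>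
    tendsto_pi_nhds.mp hlim f
  refine ⟨⟨fun f g => ?_, fun c f => ?_, fun f hf => ge_of_tendsto' (hev f) fun n =>
    (hν n).1.nonneg f hf, ?_⟩, ?_⟩
  · refine tendsto_nhds_unique (hev (f + g)) ?_
    have : (fun n => ν n (f + g)) = fun n => ν n f + ν n g := funext fun n => (hν n).1.add f g
    rw [this]
    exact (hev f).add (hev g)
  · refine tendsto_nhds_unique (hev (c • f)) ?_
    have : (fun n => ν n (c • f)) = fun n => c * ν n f := funext fun n => (hν n).1.smul c f
    rw [this]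
    exact (hev f).const_mul c
  · refine tendsto_nhds_unique (hev 1) ?_
    have : (fun n => ν n 1) = fun _ => (1 : ℝ) := funext fun n => (hν n).1.one
    rw [this]
    exact tendsto_const_nhds
  intro ε hε
  obtain ⟨δ, hδ, hsum⟩ := ENNReal.exists_pos_sum_of_countable
    (ε := ENNReal.ofReal ε) (by simpa using hε) ℕ
  have hmin : ∀ k, (0 : ℝ) < min (δ k : ℝ) (ε / 3) := fun k =>
    lt_min (by exact_mod_cast hδ k) (by linarith)
  choose A hA1 hA2 using fun k => (hν k).2 _ (hmin k)
  have hA3 : ∀ k, lam (Ev (A k).1) < δ k := fun k => by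
    refine (hA1 k).trans_le ?_
    calc ENNReal.ofReal (min (δ k : ℝ) (ε / 3)) ≤ ENNReal.ofReal (δ k : ℝ) :=
          ENNReal.ofReal_le_ofReal (min_le_left _ _)
      _ = δ k := ENNReal.ofReal_coe_nnreal
  choose U hU1 hU2 hU3 using fun k => Set.exists_isOpen_lt_of_lt (Ev (A k).1) (δ k : ENNReal) (hA3 k)
  set V : Set ℝ := ⋃ k, U k with hV
  have hVo : IsOpen V := isOpen_iUnion hU2
  have hVm : lam V < ENNReal.ofReal ε :=
    lt_of_le_of_lt ((measure_iUnion_le U).trans (ENNReal.tsum_le_tsum fun k => (hU3 k).le)) hsum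
  -- the exceptional sets
  set I : ℕ → Set T := fun k => (A k).1 \ code V with hIdef
  have hI : ∀ k, Null (I k) := by
    intro k
    refine (A k).2.mono fun x hx => ?_
    rcases hx with hx | hx
    · have hxV : x ∈ V := mem_iUnion.mpr ⟨k, hU1 k hx⟩
      have h1 : x ∈ Ev (code V) := ev_code hVo hxV
      refine Ev_mono ?_ h1
      intro p hp hp'
      exact hp'.2 hp
    · refine Ev_mono ?_ hx
      intro p hp hp'
      exact hp hp'.1
  have hIA : ∀ k (C : Set T), Meas (I k ∩ C) := fun k C => ((hI k).mono inter_subset_left).meas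
  obtain ⟨φ, hφ, B, hB, hBm⟩ := diag I hI (fun k C => ν k (chi ⟨I k ∩ C, hIA k C⟩))
    (fun k C D hCD => (hν k).1.mono (chi_mono (inter_subset_inter_right _ hCD)))
    (fun k C D => by
      rw [← (hν k).1.add]
      refine (hν k).1.mono (chi_le_add ?_)
      exact (inter_union_distrib_left _ _ _).subset)
    (fun k => by
      have : chi ⟨I k ∩ ∅, hIA k ∅⟩ = 0 := by
        apply le_antisymm
        · refine dense_le fun p => ?_
          rw [chi_pt]
          simp
        · exact chi_nonneg _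
      rw [this]
      exact map_zero (hν k).1.lin)
    (fun k C => (hν k).1.mono (chi_mono fun p hp => ⟨hp.1, hp⟩))
    (fun k n C hC => by
      have hsum' : ∑ l ∈ Finset.range n, ν k (chi ⟨I k ∩ C l, hIA k (C l)⟩) =
          ν k (∑ l ∈ Finset.range n, chi ⟨I k ∩ C l, hIA k (C l)⟩) :=
        (map_sum (hν k).1.lin _ _).symm
      rw [hsum', ← (hν k).1.one]
      refine (hν k).1.mono (dense_le fun p => ?_)
      rw [ContinuousMap.sum_apply]
      have hone : (1 : C(K, ℝ)) (pt p) = 1 := rfl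
      rw [hone]
      simp only [chi_pt]
      by_cases hex : ∃ l ∈ Finset.range n, p ∈ I k ∩ C l
      · obtain ⟨l, hl, hpl⟩ := hex
        rw [Finset.sum_eq_single_of_mem l hl]
        · simp [hpl]
        · intro j _ hj
          rw [if_neg]
          intro hpj
          exact Set.disjoint_left.mp (hC j l hj) hpj.2 hpl.2
      · push Not at hex
        rw [Finset.sum_eq_zero]
        · exact zero_le_one
        · intro l hl
          rw [if_neg (hex l hl)])
    (ε / 3) (by linarith)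
  refine ⟨⟨code V ∪ B, (meas_code hVo).union hB.meas⟩, (Ev_union_code hB).trans_lt hVm, ?_⟩
  have h2 : ν₀ (chi (cpl ⟨code V ∪ B, (meas_code hVo).union hB.meas⟩)) ≤ ε / 3 + ε / 3 := by
    refine le_of_tendsto' ((hev _).comp hφ.tendsto_atTop) fun j => ?_
    have h3 := (hA2 (φ j)).le.trans (min_le_right _ _)
    have h4 := hBm j
    have h5 : chi (cpl ⟨code V ∪ B, (meas_code hVo).union hB.meas⟩) ≤
        chi (cpl (A (φ j))) + chi ⟨I (φ j) ∩ Bᶜ, hIA _ _⟩ := by
      refine chi_le_add ?_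
      intro p hp
      by_cases h7 : p ∈ (A (φ j)).1
      · exact Or.inr ⟨⟨h7, fun h => hp (Or.inl h)⟩, fun h => hp (Or.inr h)⟩
      · exact Or.inl h7
    have h6 := (hν (φ j)).1.mono h5
    rw [(hν (φ j)).1.add] at h6
    simp only [Function.comp] at h4 ⊢
    linarith
  linarith

theorem sing_convex : Convex ℝ Sing := by
  intro ν₁ h₁ ν₂ h₂ a b ha hb hab
  have hev : ∀ f : C(K, ℝ), (a • ν₁ + b • ν₂) f = a * ν₁ f + b * ν₂ f := fun f => rfl
  refine ⟨⟨fun f g => ?_, fun c f => ?_, fun f hf => ?_, ?_⟩, fun ε hε => ?_⟩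
  · rw [hev, hev, hev, h₁.1.add, h₂.1.add]; ring
  · rw [hev, hev, h₁.1.smul, h₂.1.smul]; ring
  · rw [hev]
    exact add_nonneg (mul_nonneg ha (h₁.1.nonneg f hf)) (mul_nonneg hb (h₂.1.nonneg f hf))
  · rw [hev, h₁.1.one, h₂.1.one]; linarith
  · obtain ⟨A₁, hA₁, hB₁⟩ := h₁.2 (ε / 2) (by linarith)
    obtain ⟨A₂, hA₂, hB₂⟩ := h₂.2 (ε / 2) (by linarith)
    refine ⟨⟨A₁.1 ∪ A₂.1, A₁.2.union A₂.2⟩, ?_, ?_⟩
    · have h1 : lam (Ev (A₁.1 ∪ A₂.1)) ≤ lam (Ev A₁.1 ∪ Ev A₂.1) := by
        apply measure_mono_ae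
        filter_upwards [A₁.2, A₂.2] with x hx1 hx2 hx
        rcases hx1 with hx1 | hx1
        · exact Or.inl hx1
        rcases hx2 with hx2 | hx2
        · exact Or.inr hx2
        exfalso
        have h3 := Ev_inter hx1 hx2
        rw [← compl_union] at h3
        exact Ev_disj hx h3
      calc lam (Ev (A₁.1 ∪ A₂.1)) ≤ lam (Ev A₁.1) + lam (Ev A₂.1) := h1.trans (measure_union_le _ _)
        _ < ENNReal.ofReal (ε / 2) + ENNReal.ofReal (ε / 2) := ENNReal.add_lt_add hA₁ hA₂
        _ = ENNReal.ofReal ε := by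
            rw [← ENNReal.ofReal_add (by linarith) (by linarith)]; congr 1; ring
    · rw [hev]
      have h1 : ν₁ (chi (cpl ⟨A₁.1 ∪ A₂.1, A₁.2.union A₂.2⟩)) ≤ ν₁ (chi (cpl A₁)) := by
        exact h₁.1.mono (chi_mono (compl_subset_compl.mpr subset_union_left))
      have h2 : ν₂ (chi (cpl ⟨A₁.1 ∪ A₂.1, A₁.2.union A₂.2⟩)) ≤ ν₂ (chi (cpl A₂)) := by
        exact h₂.1.mono (chi_mono (compl_subset_compl.mpr subset_union_right))
      have h3 : ν₁ (chi (cpl ⟨A₁.1 ∪ A₂.1, A₁.2.union A₂.2⟩)) < ε := by linarith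
      have h4 : ν₂ (chi (cpl ⟨A₁.1 ∪ A₂.1, A₁.2.union A₂.2⟩)) < ε := by linarith
      rcases ha.eq_or_lt with ha' | ha'
      · have : b = 1 := by linarith
        rw [← ha', this]; linarith
      · calc a * _ + b * _ < a * ε + b * ε :=
              add_lt_add_of_lt_of_le (mul_lt_mul_of_pos_left h3 ha')
                (mul_le_mul_of_nonneg_left h4.le hb)
          _ = ε := by rw [← add_mul, hab, one_mul]

end Pool.Agent.R282.NW
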