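import Mathlib

/-!
# Definitions for `MP_44758c_an`

Baire `σ`-algebra, pointwise topology on `C(K)`, Dirac functionals and weak* sequential closure.
-/

namespace Pool.Agent.R282.NW

open MeasureTheory Filter Topology Set

/-- The Baire `σ`-algebra of a topological space: the smallest `σ`-algebra making every continuous
real-valued function measurable. -/
@[reducible] def baire (X : Type) [TopologicalSpace X] : MeasurableSpace X :=
  ⨆ g : {g : X → ℝ // Continuous g}, MeasurableSpace.comap g.1 (borel ℝ)

/-- The topology of pointwise convergence on `C(X)`. -/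
@[reducible] def pointwise (X : Type) [TopologicalSpace X] : TopologicalSpace C(X, ℝ) :=
  TopologicalSpace.induced (fun (f : C(X, ℝ)) (x : X) => f x) Pi.topologicalSpace

/-- The `σ`-algebra `Ba(C_p(X))`. -/
@[reducible] def baireCp (X : Type) [TopologicalSpace X] : MeasurableSpace C(X, ℝ) :=
  @baire C(X, ℝ) (pointwise X)

/-- The functional `f ↦ ∫ f dμ` on `C(X)`. -/
noncomputable def integ {X : Type} [TopologicalSpace X] [MeasurableSpace X] (μ : Measure X) :
    C(X, ℝ) → ℝ := fun f => ∫ x, f x ∂μ

/-- The functional on `C(X)` given by the Dirac measure at `x`. -/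
def dirac {X : Type} [TopologicalSpace X] (x : X) : C(X, ℝ) → ℝ := fun f => f x

/-- The sequential closure of `A`: the smallest sequentially closed set containing `A`. -/
def Seq {M : Type} [TopologicalSpace M] (A : Set M) : Set M :=
  ⋂₀ {B : Set M | A ⊆ B ∧ IsSeqClosed B}

/-- `Seq (co Δ_X)`: the sequential closure, for pointwise convergence on `C(X)` (this is the weak*
convergence), of the convex hull of the Dirac functionals. -/
def seqCoDirac (X : Type) [TopologicalSpace X] : Set (C(X, ℝ) → ℝ) :=
  Seq (convexHull ℝ (range (dirac (X := X))))

end Pool.Agent.R282.NW
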