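import Mathlib
import Pool.Agent.R282.NW2
import Pool.Agent.R282.NWDefs

/-!
# Dirac functionals are singular, the limit functional
-/

namespace Pool.Agent.R282.NW

open MeasureTheory Filter Topology Set

theorem dirac_apply {X : Type} [TopologicalSpace X] (x : X) (f : C(X, ℝ)) : dirac x f = f x := rfl

theorem chi_add_cpl (A : Alg) : chi A + chi (cpl A) = 1 := by
  apply le_antisymm
  · refine dense_le fun p => ?_
    rw [ContinuousMap.add_apply]
    change _ ≤ (1 : ℝ)
    by_cases hp : p ∈ A.1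
    · have h2 : p ∉ (cpl A).1 := fun h => h hp
      rw [chi_pt_mem hp, chi_pt_notMem h2]; norm_num
    · have h2 : p ∈ (cpl A).1 := hp
      rw [chi_pt_notMem hp, chi_pt_mem h2]; norm_num
  · refine dense_le fun p => ?_
    rw [ContinuousMap.add_apply]
    change (1 : ℝ) ≤ _
    by_cases hp : p ∈ A.1
    · have h2 : p ∉ (cpl A).1 := fun h => h hp
      rw [chi_pt_mem hp, chi_pt_notMem h2]; norm_num
    · have h2 : p ∈ (cpl A).1 := hp
      rw [chi_pt_notMem hp, chi_pt_mem h2]; norm_num

theorem lam_finite {s : Set ℝ} (hs : s.Finite) : lam s = 0 := by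
  have h1 : volume s = 0 := hs.measure_zero volume
  exact le_antisymm ((Measure.restrict_apply_le _ s).trans h1.le) bot_le

/-- The pieces of the partition. -/
noncomputable def piece (N l : ℕ) : Set ℝ :=
  if l < N then Ico ((l : ℝ) / N) ((l + 1) / N) else (Ico 0 1)ᶜ

theorem piece_frontier (N l : ℕ) : lam (frontier (piece N l)) = 0 := by
  unfold piece
  split_ifs with h
  · have hN : (0 : ℝ) < N := by exact_mod_cast (by omega : 0 < N)
    rw [frontier_Ico (by gcongr; linarith)]
    exact lam_finite (by simp)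
  · rw [frontier_compl, frontier_Ico (by norm_num)]
    exact lam_finite (by simp)

theorem piece_closure (N l : ℕ) (hN : 0 < N) :
    lam (closure (piece N l)) ≤ ENNReal.ofReal (1 / N) := by
  have hN' : (0 : ℝ) < N := by exact_mod_cast hN
  unfold piece
  split_ifs with h
  · rw [closure_Ico (by
      intro he
      have : (l : ℝ) / N < (l + 1) / N := by gcongr; linarith
      exact absurd he this.ne)]
    refine (Measure.restrict_apply_le _ _).trans ?_
    rw [Real.volume_Icc]
    apply ENNReal.ofReal_le_ofReal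
    rw [← sub_div]
    simp
  · rw [closure_compl, interior_Ico]
    have h1 : lam (Ioo (0 : ℝ) 1)ᶜ = 0 := by
      unfold lam
      rw [Measure.restrict_apply (measurableSet_Ioo.compl)]
      refine measure_mono_null (t := {0, 1}) ?_ ((by simp : ({0, 1} : Set ℝ).Finite).measure_zero _)
      rintro x ⟨hx1, hx2⟩
      simp only [mem_compl_iff, mem_Ioo, not_and, not_lt] at hx1
      simp only [mem_insert_iff, mem_singleton_iff]
      rcases hx2.1.eq_or_lt with h0 | h0
      · exact Or.inl h0.symm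
      · exact Or.inr (le_antisymm hx2.2 (hx1 h0))
    rw [h1]
    exact bot_le

/-- The sets of the partition. -/
noncomputable def Q (N l : ℕ) : Alg := ⟨lset (piece N l), meas_lset (piece_frontier N l)⟩

theorem Q_cover (N : ℕ) (hN : 0 < N) :
    (1 : C(K, ℝ)) ≤ ∑ l ∈ Finset.range (N + 1), chi (Q N l) := by
  have hN' : (0 : ℝ) < N := by exact_mod_cast hN
  refine dense_le fun p => ?_
  rw [ContinuousMap.sum_apply]
  change (1 : ℝ) ≤ _
  have hex : ∃ l ∈ Finset.range (N + 1), p ∈ (Q N l).1 := by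
    by_cases hp : left p ∈ Ico (0 : ℝ) 1
    · have h0 : 0 ≤ left p * N := mul_nonneg hp.1 hN'.le
      have h1 := Nat.floor_le h0
      have h2 := Nat.lt_floor_add_one (left p * N)
      have h3 : ⌊left p * N⌋₊ < N := by
        rw [Nat.floor_lt h0]
        nlinarith [hp.2]
      refine ⟨⌊left p * N⌋₊, Finset.mem_range.mpr (by omega), ?_⟩
      change left p ∈ piece N _
      unfold piece
      rw [if_pos h3]
      constructor
      · rw [div_le_iff₀ hN']; exact h1
      · rw [lt_div_iff₀ hN']; exact h2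
    · refine ⟨N, Finset.mem_range.mpr (by omega), ?_⟩
      change left p ∈ piece N _
      unfold piece
      rw [if_neg (lt_irrefl _)]
      exact hp
  obtain ⟨l, hl, hpl⟩ := hex
  calc (1 : ℝ) = chi (Q N l) (pt p) := (chi_pt_mem hpl).symm
    _ ≤ ∑ l ∈ Finset.range (N + 1), chi (Q N l) (pt p) :=
        Finset.single_le_sum (fun i _ => chi_pt_nonneg _ _) hl

theorem dirac_sing (φ : K) : dirac φ ∈ Sing := by
  refine ⟨⟨fun f g => rfl, fun c f => rfl, fun f hf => hf φ, rfl⟩, fun ε hε => ?_⟩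
  obtain ⟨n, hn⟩ := exists_nat_one_div_lt hε
  have hex : ∃ l ∈ Finset.range (n + 1 + 1), φ.1 (Q (n + 1) l) = true := by
    by_contra hc
    push Not at hc
    have h1 := Q_cover (n + 1) (Nat.succ_pos n) φ
    have h2 : (∑ l ∈ Finset.range (n + 1 + 1), chi (Q (n + 1) l)) φ = 0 := by
      rw [ContinuousMap.sum_apply]
      refine Finset.sum_eq_zero fun l hl => ?_
      rw [chi_apply, if_neg (by simpa using hc l hl)]
    have h3 : (1 : C(K, ℝ)) φ = 1 := rfl
    have h4 : (1 : ℝ) ≤ 0 := by rw [← h3, ← h2]; exact h1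
    linarith
  obtain ⟨l, _, hl⟩ := hex
  refine ⟨Q (n + 1) l, ?_, ?_⟩
  · calc lam (Ev (Q (n + 1) l).1) ≤ lam (closure (piece (n + 1) l)) :=
          measure_mono (Ev_lset_subset _)
      _ ≤ ENNReal.ofReal (1 / ((n + 1 : ℕ) : ℝ)) := piece_closure _ _ (Nat.succ_pos n)
      _ < ENNReal.ofReal ε := by
          apply (ENNReal.ofReal_lt_ofReal_iff hε).mpr
          push_cast
          exact hn
  · rw [dirac_apply]
    have h1 := congrArg (fun g : C(K, ℝ) => g φ) (chi_add_cpl (Q (n + 1) l))
    simp only [ContinuousMap.add_apply] at h1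
    rw [chi_apply (Q (n + 1) l) φ, if_pos hl] at h1
    have h3 : (1 : C(K, ℝ)) φ = 1 := rfl
    rw [h3] at h1
    linarith

theorem seq_subset_sing : seqCoDirac K ⊆ Sing := by
  intro ν hν
  refine hν Sing ⟨?_, sing_seqClosed⟩
  refine convexHull_min ?_ sing_convex
  rintro _ ⟨φ, rfl⟩
  exact dirac_sing φ

/-! ### The limit functional -/

/-- The values of `f` along the path of `x` converge. -/
def Conv (f : C(K, ℝ)) (x : ℝ) : Prop := ∃ l, Tendsto (fun s => f (pt (pos s x))) Fnw (𝓝 l)

/-- The algebra of continuous functions which converge almost everywhere. -/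
noncomputable def convAlg : Subalgebra ℝ C(K, ℝ) where
  carrier := {f | ∀ᵐ x ∂lam, Conv f x}
  mul_mem' := by
    intro f g hf hg
    change ∀ᵐ x ∂lam, Conv f x at hf
    change ∀ᵐ x ∂lam, Conv g x at hg
    change ∀ᵐ x ∂lam, Conv (f * g) x
    filter_upwards [hf, hg] with x hx hy
    obtain ⟨l, hl⟩ := hx
    obtain ⟨l', hl'⟩ := hy
    exact ⟨l * l', hl.mul hl'⟩
  add_mem' := by
    intro f g hf hg
    change ∀ᵐ x ∂lam, Conv f x at hf
    change ∀ᵐ x ∂lam, Conv g x at hg
    change ∀ᵐ x ∂lam, Conv (f + g) x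
    filter_upwards [hf, hg] with x hx hy
    obtain ⟨l, hl⟩ := hx
    obtain ⟨l', hl'⟩ := hy
    exact ⟨l + l', hl.add hl'⟩
  algebraMap_mem' := by
    intro r
    change ∀ᵐ x ∂lam, Conv (algebraMap ℝ C(K, ℝ) r) x
    refine Filter.Eventually.of_forall fun x => ⟨r, ?_⟩
    have h : (fun s => (algebraMap ℝ C(K, ℝ) r) (pt (pos s x))) = fun _ => r := by
      funext s; simp
    rw [h]
    exact tendsto_const_nhds

theorem tendsto_chi_one {A : Alg} {x : ℝ} (hx : x ∈ Ev A.1) :
    Tendsto (fun s => chi A (pt (pos s x))) Fnw (𝓝 1) := by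
  refine tendsto_const_nhds.congr' ?_
  filter_upwards [mem_Ev.mp hx] with s hs
  exact (chi_pt_mem hs).symm

theorem tendsto_chi_zero {A : Alg} {x : ℝ} (hx : x ∈ Ev A.1ᶜ) :
    Tendsto (fun s => chi A (pt (pos s x))) Fnw (𝓝 0) := by
  refine tendsto_const_nhds.congr' ?_
  filter_upwards [mem_Ev.mp hx] with s hs
  exact (chi_pt_notMem hs).symm

theorem chi_mem (A : Alg) : chi A ∈ convAlg := by
  refine A.2.mono fun x hx => ?_
  rcases hx with hx | hx
  · exact ⟨1, tendsto_chi_one hx⟩
  · exact ⟨0, tendsto_chi_zero hx⟩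

theorem convAlg_closed : IsClosed (convAlg : Set C(K, ℝ)) := by
  refine isClosed_of_closure_subset fun f hf => ?_
  obtain ⟨g, hg, hlim⟩ := mem_closure_iff_seq_limit.mp hf
  have hall : ∀ᵐ x ∂lam, ∀ n, Conv (g n) x := ae_all_iff.mpr hg
  refine hall.mono fun x hx => ?_
  have hc : Cauchy (map (fun s => f (pt (pos s x))) Fnw) := by
    rw [Metric.cauchy_iff]
    refine ⟨inferInstance, fun ε hε => ?_⟩
    obtain ⟨n, hn⟩ := ((Metric.tendsto_nhds.mp hlim) (ε / 4) (by linarith)).exists
    obtain ⟨l, hl⟩ := hx n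
    have h1 : ∀ᶠ s in Fnw, dist (g n (pt (pos s x))) l < ε / 4 :=
      (Metric.tendsto_nhds.mp hl) (ε / 4) (by linarith)
    refine ⟨(fun s => f (pt (pos s x))) '' {s | dist (g n (pt (pos s x))) l < ε / 4},
      image_mem_map h1, ?_⟩
    rintro _ ⟨s, hs, rfl⟩ _ ⟨t, ht, rfl⟩
    have h2 : ∀ p, dist (g n p) (f p) < ε / 4 := fun p =>
      (ContinuousMap.dist_apply_le_dist p).trans_lt hn
    have h3 := h2 (pt (pos s x))
    have h4 := h2 (pt (pos t x))
    change dist (g n (pt (pos s x))) l < ε / 4 at hs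
    change dist (g n (pt (pos t x))) l < ε / 4 at ht
    simp only [Real.dist_eq] at hs ht h3 h4 ⊢
    rw [abs_lt] at *
    constructor <;> linarith [hs.1, hs.2, ht.1, ht.2, h3.1, h3.2, h4.1, h4.2]
  obtain ⟨l, hl⟩ := CompleteSpace.complete hc
  exact ⟨l, hl⟩

theorem convAlg_top (f : C(K, ℝ)) : ∀ᵐ x ∂lam, Conv f x := by
  have hsep : convAlg.SeparatesPoints := by
    intro φ ψ hφψ
    have h1 : ∃ A : Alg, φ.1 A ≠ ψ.1 A := by
      by_contra hc
      push Not at hc
      exact hφψ (Subtype.ext (funext hc))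
    obtain ⟨A, hA⟩ := h1
    refine ⟨chi A, ⟨chi A, chi_mem A, rfl⟩, ?_⟩
    rw [chi_apply, chi_apply]
    intro h
    apply hA
    by_cases h2 : φ.1 A = true
    · by_cases h3 : ψ.1 A = true
      · rw [h2, h3]
      · rw [if_pos h2, if_neg h3] at h; norm_num at h
    · by_cases h3 : ψ.1 A = true
      · rw [if_neg h2, if_pos h3] at h; norm_num at h
      · simp only [Bool.not_eq_true] at h2 h3
        rw [h2, h3]
  have h := ContinuousMap.subalgebra_topologicalClosure_eq_top_of_separatesPoints convAlg hsep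
  have h2 : f ∈ convAlg.topologicalClosure := by rw [h]; trivial
  have h3 : f ∈ closure (convAlg : Set C(K, ℝ)) := h2
  rw [convAlg_closed.closure_eq] at h3
  exact h3

end Pool.Agent.R282.NW
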