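import Mathlib
import Pool.Agent.R282.NW3

/-!
# The limit functional: measurability, integral representation
-/

namespace Pool.Agent.R282.NW

open MeasureTheory Filter Topology Set

/-- The upper limit along `Fnw` of the values of `g` on the path of `x`. -/
noncomputable def G (q : (T → ℝ) × ℝ) : EReal :=
  limsup (fun s => ((q.1 (pos s q.2) : ℝ) : EReal)) Fnw

theorem measurable_idx (u : S) : Measurable fun x : ℝ => idx u x :=
  Int.measurable_floor.comp (measurable_const.mul measurable_id)

theorem measurable_eval (u : S) : Measurable fun q : (T → ℝ) × ℝ => q.1 (pos u q.2) := by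
  have h1 : Measurable fun r : (T → ℝ) × ℤ => r.1 ((u, r.2) : T) :=
    measurable_from_prod_countable_left fun j =>
      (measurable_pi_apply ((u, j) : T) : Measurable fun f : T → ℝ => f ((u, j) : T))
  have h2 : Measurable fun q : (T → ℝ) × ℝ => (q.1, idx u q.2) :=
    measurable_fst.prodMk ((measurable_idx u).comp measurable_snd)
  exact h1.comp h2

theorem measurable_G : Measurable G := by
  refine measurable_of_Iio fun c => ?_
  have h1 : G ⁻¹' Iio c = ⋃ (r : ℚ) (_ : (((r : ℝ)) : EReal) < c), ⋂ s : S, ⋃ (t : S) (_ : s <:+ t),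
      ⋂ (u : S) (_ : t <:+ u), {q : (T → ℝ) × ℝ | q.1 (pos u q.2) ≤ (r : ℝ)} := by
    ext q
    simp only [mem_preimage, mem_Iio, mem_iUnion, mem_iInter, exists_prop]
    constructor
    · intro h
      obtain ⟨r, hr1, hr2⟩ := EReal.exists_rat_btwn_of_lt h
      refine ⟨r, hr2, fun s => ?_⟩
      have h2 := Filter.eventually_lt_of_limsup_lt hr1
      obtain ⟨t, ht1, ht2⟩ := ev_Fnw.mp h2 s
      refine ⟨t, ht1, fun u hu => ?_⟩
      have h3 := ht2 u hu
      change q.1 (pos u q.2) ≤ (r : ℝ)
      exact (EReal.coe_lt_coe_iff.mp h3).le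
    · rintro ⟨r, hr, h⟩
      refine lt_of_le_of_lt ?_ hr
      refine Filter.limsup_le_of_le ?_ ?_
      · isBoundedDefault
      rw [ev_Fnw]
      intro s
      obtain ⟨t, ht1, ht2⟩ := h s
      refine ⟨t, ht1, fun u hu => ?_⟩
      exact EReal.coe_le_coe_iff.mpr (ht2 u hu)
  rw [h1]
  refine MeasurableSet.iUnion fun r => MeasurableSet.iUnion fun _ => MeasurableSet.iInter fun s =>
    MeasurableSet.iUnion fun t => MeasurableSet.iUnion fun _ => MeasurableSet.iInter fun u =>
    MeasurableSet.iInter fun _ => ?_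
  exact measurableSet_le (measurable_eval u) measurable_const

/-- The real-valued version. -/
noncomputable def Gr (q : (T → ℝ) × ℝ) : ℝ := (G q).toReal

theorem measurable_Gr : Measurable Gr := measurable_G.ereal_toReal

theorem Gr_eq {g : T → ℝ} {x l : ℝ} (h : Tendsto (fun s => g (pos s x)) Fnw (𝓝 l)) :
    Gr (g, x) = l := by
  unfold Gr G
  have h1 : Tendsto (fun s => ((g (pos s x) : ℝ) : EReal)) Fnw (𝓝 (l : EReal)) :=
    (continuous_coe_real_ereal.tendsto l).comp h
  simp only
  rw [h1.limsup_eq, EReal.toReal_coe]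

/-- The integral of the limit. -/
noncomputable def Phi (g : T → ℝ) : ℝ := ∫ x, Gr (g, x) ∂lam

theorem measurable_Phi : Measurable Phi :=
  (measurable_Gr.stronglyMeasurable.integral_prod_right' (ν := lam)).measurable

/-- The trace of `f` on the isolated points. -/
noncomputable def tr (f : C(K, ℝ)) : T → ℝ := fun p => f (pt p)

/-- The limit functional. -/
noncomputable def Lam (f : C(K, ℝ)) : ℝ := Phi (tr f)

theorem Gr_bound (f : C(K, ℝ)) : ∀ᵐ x ∂lam, ‖Gr (tr f, x)‖ ≤ ‖f‖ := by
  refine (convAlg_top f).mono fun x hx => ?_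
  obtain ⟨l, hl⟩ := hx
  rw [Gr_eq (g := tr f) hl]
  exact le_of_tendsto' hl.norm fun s => f.norm_coe_le_norm _

theorem integrable_Gr (f : C(K, ℝ)) : Integrable (fun x => Gr (tr f, x)) lam := by
  refine Integrable.of_bound (C := ‖f‖) ?_ (Gr_bound f)
  exact (measurable_Gr.comp (measurable_const.prodMk measurable_id)).aestronglyMeasurable

theorem Lam_add (f g : C(K, ℝ)) : Lam (f + g) = Lam f + Lam g := by
  unfold Lam Phi
  rw [← integral_add (integrable_Gr f) (integrable_Gr g)]
  refine integral_congr_ae ?_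
  filter_upwards [convAlg_top f, convAlg_top g] with x hx hy
  obtain ⟨l, hl⟩ := hx
  obtain ⟨l', hl'⟩ := hy
  rw [Gr_eq (g := tr f) hl, Gr_eq (g := tr g) hl', Gr_eq (g := tr (f + g)) (hl.add hl')]

theorem Lam_smul (c : ℝ) (f : C(K, ℝ)) : Lam (c • f) = c * Lam f := by
  unfold Lam Phi
  rw [← integral_const_mul]
  refine integral_congr_ae ?_
  filter_upwards [convAlg_top f] with x hx
  obtain ⟨l, hl⟩ := hx
  rw [Gr_eq (g := tr f) hl, Gr_eq (g := tr (c • f)) (hl.const_mul c)]

theorem Lam_mono {f g : C(K, ℝ)} (h : f ≤ g) : Lam f ≤ Lam g := by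
  unfold Lam Phi
  refine integral_mono_ae (integrable_Gr f) (integrable_Gr g) ?_
  filter_upwards [convAlg_top f, convAlg_top g] with x hx hy
  obtain ⟨l, hl⟩ := hx
  obtain ⟨l', hl'⟩ := hy
  rw [Gr_eq (g := tr f) hl, Gr_eq (g := tr g) hl']
  exact le_of_tendsto_of_tendsto' hl hl' fun s => h _

theorem Lam_one : Lam 1 = 1 := by
  unfold Lam Phi
  have h : ∀ x, Gr (tr 1, x) = 1 := fun x => by
    refine Gr_eq (g := tr 1) ?_
    exact tendsto_const_nhds
  simp [h]

theorem measurableSet_Ev (A : Set T) : MeasurableSet (Ev A) := by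
  have h1 : Ev A = ⋂ s : S, ⋃ (t : S) (_ : s <:+ t), ⋂ (u : S) (_ : t <:+ u),
      {x : ℝ | pos u x ∈ A} := by
    ext x
    rw [mem_Ev, ev_Fnw]
    simp only [mem_iUnion, mem_iInter, exists_prop]
    rfl
  rw [h1]
  refine MeasurableSet.iInter fun s => MeasurableSet.iUnion fun t => MeasurableSet.iUnion fun _ =>
    MeasurableSet.iInter fun u => MeasurableSet.iInter fun _ => ?_
  have h2 : {x : ℝ | pos u x ∈ A} = (fun x => idx u x) ⁻¹' {j : ℤ | ((u, j) : T) ∈ A} := rfl
  rw [h2]
  exact measurable_idx u (MeasurableSet.of_discrete)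

theorem Lam_chi (A : Alg) : Lam (chi A) = lam.real (Ev A.1) := by
  unfold Lam Phi
  rw [← integral_indicator_one (measurableSet_Ev A.1)]
  refine integral_congr_ae ?_
  filter_upwards [A.2] with x hx
  rcases hx with hx | hx
  · rw [Gr_eq (g := tr (chi A)) (tendsto_chi_one hx), indicator_of_mem hx]; rfl
  · have h2 : x ∉ Ev A.1 := fun h => Ev_disj h hx
    rw [Gr_eq (g := tr (chi A)) (tendsto_chi_zero hx), indicator_of_notMem h2]

theorem Lam_notMem : Lam ∉ Sing := by
  rintro ⟨_, h⟩
  obtain ⟨A, hA1, hA2⟩ := h (1 / 2) (by norm_num)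
  have h1 : Lam (chi A) + Lam (chi (cpl A)) = 1 := by
    rw [← Lam_add, chi_add_cpl, Lam_one]
  have h2 : Lam (chi A) < 1 / 2 := by
    rw [Lam_chi, Measure.real]
    exact (ENNReal.toReal_lt_of_lt_ofReal hA1)
  linarith

/-- `Lam` as a positive linear functional on compactly supported functions. -/
noncomputable def LamC : CompactlySupportedContinuousMap K ℝ →ₚ[ℝ] ℝ where
  toFun g := Lam g.toContinuousMap
  map_add' _ _ := Lam_add _ _
  map_smul' _ _ := Lam_smul _ _
  monotone' := fun _ _ hgg' => Lam_mono hgg'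

instance : MeasurableSpace K := borel K

instance : BorelSpace K := ⟨rfl⟩

/-- The limit measure. -/
noncomputable def mu : Measure K := RealRMK.rieszMeasure LamC

theorem integral_mu (f : C(K, ℝ)) : ∫ x, f x ∂mu = Lam f := by
  let f' : CompactlySupportedContinuousMap K ℝ := ⟨f, HasCompactSupport.of_compactSpace _⟩
  exact RealRMK.integral_rieszMeasure LamC f'

instance : IsFiniteMeasure mu := by unfold mu; infer_instance

instance : mu.Regular := by unfold mu; infer_instance

instance : IsProbabilityMeasure mu := by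
  constructor
  have h1 := integral_mu 1
  rw [Lam_one] at h1
  have h2 : ∫ x, (1 : C(K, ℝ)) x ∂mu = mu.real univ := by
    simp
  rw [h2, Measure.real] at h1
  exact (ENNReal.toReal_eq_one_iff _).mp h1

theorem integ_mu : integ mu = Lam := funext integral_mu

theorem measurable_tr : @Measurable _ _ (baireCp K) MeasurableSpace.pi tr := by
  refine @measurable_pi_lambda _ _ _ (baireCp K) _ _ fun p => ?_
  have h1 : @Continuous _ _ (pointwise K) _ (fun f : C(K, ℝ) => f (pt p)) := by
    have h2 : @Continuous _ _ (pointwise K) Pi.topologicalSpace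
        (fun (f : C(K, ℝ)) (x : K) => f x) := continuous_induced_dom
    exact @Continuous.comp _ _ _ (pointwise K) _ _ _ _ (continuous_apply (pt p)) h2
  rw [measurable_iff_comap_le]
  have h3 : (inferInstance : MeasurableSpace ℝ) = borel ℝ := BorelSpace.measurable_eq
  rw [show (Real.measurableSpace : MeasurableSpace ℝ) = borel ℝ from BorelSpace.measurable_eq]
  exact le_iSup (fun g : {g : C(K, ℝ) → ℝ // @Continuous _ _ (pointwise K) _ g} =>
    MeasurableSpace.comap g.1 (borel ℝ)) ⟨_, h1⟩

theorem measurable_int : @Measurable _ _ (baireCp K) _ (integ mu) := by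
  have h : integ mu = fun f => Phi (tr f) := integ_mu
  rw [h]
  exact measurable_Phi.comp measurable_tr

end Pool.Agent.R282.NW
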