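import Mathlib

/-!
Orthogonally additive maps: an example where the join in `O(E,F)` is larger than the pointwise
supremum over the splittings of `x`.
-/

namespace Pool.Agent.R282.OA

open Filter Topology

/-! ### definitions -/

section Defs

variable {E : Type} [AddCommGroup E] [Lattice E]
variable {F : Type} [AddCommGroup F] [Lattice F]

/-- `x ⊥ y` -/
def Disj (x y : E) : Prop := |x| ⊓ |y| = 0

/-- `T` is orthogonally additive -/
def OrthAdd (T : E → F) : Prop := ∀ x y, Disj x y → T (x + y) = T x + T y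

/-- `W` is the least upper bound `S ∨ T` in the space `O(E,F)` of orthogonally additive maps
with the pointwise order -/
def IsJoin (S T W : E → F) : Prop :=
  OrthAdd W ∧ (∀ x, S x ≤ W x) ∧ (∀ x, T x ≤ W x) ∧
    ∀ D : E → F, OrthAdd D → (∀ x, S x ≤ D x) → (∀ x, T x ≤ D x) → ∀ x, W x ≤ D x

/-- the set `{S(u) + T(v) : x = u ⊔ v}` -/
def splitSet (S T : E → F) (x : E) : Set F :=
  {w | ∃ u v, Disj u v ∧ x = u + v ∧ w = S u + T v}

/-- `F` is an Archimedean Riesz space -/
def ArchRiesz (F : Type) [AddCommGroup F] [Lattice F] : Prop :=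
  ∀ x y : F, (∀ n : ℕ, n • x ≤ y) → x ≤ 0

end Defs

noncomputable section

/-! ### the density measures -/

/-- the ultrafilter -/
abbrev UU : Filter ℕ := (hyperfilter ℕ : Filter ℕ)

/-- relative frequency in `{0, ..., n-1}` -/
def d (n : ℕ) (v : Set ℕ) : ℝ := ((Set.Iio n ∩ v).ncard : ℝ) / n

lemma ncard_Iio (n : ℕ) : (Set.Iio n).ncard = n := by
  rw [Set.ncard_eq_toFinset_card']
  simp

lemma fin_Iio (n : ℕ) (v : Set ℕ) : (Set.Iio n ∩ v).Finite := (Set.finite_Iio n).inter_of_left v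

lemma d_nonneg (n : ℕ) (v : Set ℕ) : 0 ≤ d n v := by unfold d; positivity

lemma d_le_one (n : ℕ) (v : Set ℕ) : d n v ≤ 1 := by
  unfold d
  rcases Nat.eq_zero_or_pos n with h | h
  · subst h; simp
  · rw [div_le_one (by exact_mod_cast h)]
    have := Set.ncard_le_ncard (Set.inter_subset_left (s := Set.Iio n) (t := v))
      (Set.finite_Iio n)
    rw [ncard_Iio] at this
    exact_mod_cast this

lemma d_union (n : ℕ) {u v : Set ℕ} (h : Disjoint u v) : d n (u ∪ v) = d n u + d n v := by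
  unfold d
  rw [← add_div, Set.inter_union_distrib_left, Set.ncard_union_eq
    (h.mono Set.inter_subset_right Set.inter_subset_right) (fin_Iio n u) (fin_Iio n v)]
  push_cast
  rfl

lemma exists_m (v : Set ℕ) : ∃ c : ℝ, Tendsto (fun n => d n v) UU (𝓝 c) := by
  have hc : IsCompact (Set.Icc (0 : ℝ) 1) := isCompact_Icc
  have hmem : (Set.Icc (0 : ℝ) 1) ∈ ((hyperfilter ℕ).map (fun n => d n v) : Ultrafilter ℝ) := by
    refine Filter.Eventually.of_forall (f := UU) (p := fun n => d n v ∈ Set.Icc (0 : ℝ) 1)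
      fun n => ⟨d_nonneg n v, d_le_one n v⟩
  obtain ⟨c, _, hc'⟩ := hc.ultrafilter_le_nhds' _ hmem
  exact ⟨c, hc'⟩

/-- the limit density -/
def m (v : Set ℕ) : ℝ := (exists_m v).choose

lemma m_spec (v : Set ℕ) : Tendsto (fun n => d n v) UU (𝓝 (m v)) := (exists_m v).choose_spec

lemma m_nonneg (v : Set ℕ) : 0 ≤ m v :=
  ge_of_tendsto (m_spec v) (Eventually.of_forall fun n => d_nonneg n v)

lemma m_union {u v : Set ℕ} (h : Disjoint u v) : m (u ∪ v) = m u + m v := by
  have h1 := m_spec (u ∪ v)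
  have h2 := (m_spec u).add (m_spec v)
  simp only [d_union _ h] at h1
  exact tendsto_nhds_unique h1 h2

lemma m_mono {u v : Set ℕ} (h : u ⊆ v) : m u ≤ m v := by
  have h1 : m v = m u + m (v \ u) := by
    rw [← m_union Set.disjoint_sdiff_right, Set.union_sdiff_cancel h]
  have := m_nonneg (v \ u)
  linarith

lemma tendsto_inv_UU : Tendsto (fun n : ℕ => (n : ℝ)⁻¹) UU (𝓝 0) := by
  have h1 : Tendsto (fun n : ℕ => (n : ℝ)⁻¹) atTop (𝓝 0) := tendsto_inv_atTop_nhds_zero_nat
  refine h1.mono_left ?_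
  rw [← Nat.cofinite_eq_atTop]
  exact hyperfilter_le_cofinite

/-- finite sets are null -/
lemma m_initial (N : ℕ) : m {i | i < N} = 0 := by
  have h1 : Tendsto (fun n : ℕ => (N : ℝ) * (n : ℝ)⁻¹) UU (𝓝 ((N : ℝ) * 0)) :=
    tendsto_inv_UU.const_mul _
  rw [mul_zero] at h1
  refine le_antisymm (le_of_tendsto_of_tendsto (m_spec _) h1 (Eventually.of_forall fun n => ?_))
    (m_nonneg _)
  unfold d
  simp only [div_eq_mul_inv]
  refine mul_le_mul_of_nonneg_right ?_ (by positivity)
  have : (Set.Iio n ∩ {i | i < N}).ncard ≤ N := by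
    calc _ ≤ (Set.Iio N).ncard := Set.ncard_le_ncard (by
          intro i hi
          exact hi.2) (Set.finite_Iio N)
      _ = N := ncard_Iio N
  exact_mod_cast this

/-- residue classes -/
def cls (ℓ r : ℕ) : Set ℕ := {i | i % 2 ^ (ℓ + 2) = r}

/-- residue classes are small -/
lemma m_cls (ℓ r : ℕ) : m (cls ℓ r) ≤ (2 ^ (ℓ + 2) : ℝ)⁻¹ := by
  set N := 2 ^ (ℓ + 2) with hN
  have hN0 : 0 < N := by positivity
  have hcast : ((2 ^ (ℓ + 2) : ℝ)) = (N : ℝ) := by rw [hN]; push_cast; rfl
  rw [hcast]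
  have h1 : Tendsto (fun n : ℕ => (N : ℝ)⁻¹ + (n : ℝ)⁻¹) UU (𝓝 ((N : ℝ)⁻¹ + 0)) :=
    tendsto_inv_UU.const_add _
  rw [add_zero] at h1
  refine le_of_tendsto_of_tendsto (m_spec _) h1 (Eventually.of_forall fun n => ?_)
  unfold d
  rcases Nat.eq_zero_or_pos n with h | h
  · subst h; simp
  have hn : (0 : ℝ) < n := by exact_mod_cast h
  rw [div_le_iff₀ hn, add_mul, inv_mul_cancel₀ hn.ne']
  have hcard : (Set.Iio n ∩ cls ℓ r).ncard ≤ n / N + 1 := by
    have h2 : (Set.Iio n ∩ cls ℓ r).ncard ≤ (Set.Iio (n / N + 1)).ncard := by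
      refine Set.ncard_le_ncard_of_injOn (fun i => i / N) ?_ ?_ (Set.finite_Iio _)
      · intro i hi
        have h4 : i / N ≤ n / N := Nat.div_le_div_right (le_of_lt hi.1)
        exact Nat.lt_succ_of_le h4
      · intro i hi j hj hij
        have h3 : i % N = r := hi.2
        have h4 : j % N = r := hj.2
        have hij' : i / N = j / N := hij
        rw [← Nat.div_add_mod i N, ← Nat.div_add_mod j N, h3, h4, hij']
    rwa [ncard_Iio] at h2
  have h5 : ((n / N : ℕ) : ℝ) ≤ (n : ℝ) / N := Nat.cast_div_le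
  calc ((Set.Iio n ∩ cls ℓ r).ncard : ℝ) ≤ ((n / N + 1 : ℕ) : ℝ) := by
        exact_mod_cast hcard
    _ = ((n / N : ℕ) : ℝ) + 1 := by push_cast; rfl
    _ ≤ (n : ℝ) / N + 1 := by linarith
    _ = (N : ℝ)⁻¹ * n + 1 := by rw [div_eq_mul_inv]; ring

/-! ### the tree -/

/-- the nodes of the tree -/
abbrev Tree := List (ℕ × ℕ)

/-- the set attached to a node -/
def CC : Tree → Set ℕ
  | [] => ∅
  | (q :: t) => CC t ∪ cls t.length q.1

/-- the signed measure attached to a node -/
def mu : Tree → Set ℕ → ℝ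
  | [], _ => 0
  | (q :: t), v => mu t v + m ((cls t.length q.1 \ CC t) ∩ v) - d q.2 ((cls t.length q.1 \ CC t) ∩ v)

lemma mu_union (s : Tree) {u v : Set ℕ} (h : Disjoint u v) : mu s (u ∪ v) = mu s u + mu s v := by
  induction s with
  | nil => simp [mu]
  | cons q t ih =>
    simp only [mu]
    have hd : Disjoint ((cls t.length q.1 \ CC t) ∩ u) ((cls t.length q.1 \ CC t) ∩ v) :=
      h.mono Set.inter_subset_right Set.inter_subset_right
    rw [ih, Set.inter_union_distrib_left, m_union hd, d_union _ hd]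
    ring

lemma m_CC_cons (q : ℕ × ℕ) (t : Tree) (v : Set ℕ) :
    m (CC (q :: t) ∩ v) = m (CC t ∩ v) + m ((cls t.length q.1 \ CC t) ∩ v) := by
  have hd : Disjoint (CC t ∩ v) ((cls t.length q.1 \ CC t) ∩ v) := by
    rw [Set.disjoint_left]
    rintro i ⟨h1, _⟩ ⟨⟨_, h2⟩, _⟩
    exact h2 h1
  rw [← m_union hd, ← Set.union_inter_distrib_right, Set.union_sdiff_self]
  rfl

lemma mu_le (s : Tree) (v : Set ℕ) : mu s v ≤ m (CC s ∩ v) := by
  induction s with
  | nil => simp only [mu]; exact m_nonneg _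
  | cons q t ih =>
    rw [m_CC_cons]
    simp only [mu]
    have := d_nonneg q.2 ((cls t.length q.1 \ CC t) ∩ v)
    linarith

lemma m_CC_le (s : Tree) : m (CC s) ≤ 1 / 2 - 1 / 2 ^ (s.length + 1) := by
  induction s with
  | nil =>
    have h1 : CC [] = {i | i < 0} := by ext i; simp [CC]
    rw [h1, m_initial]
    simp
  | cons q t ih =>
    have h1 := m_CC_cons q t Set.univ
    simp only [Set.inter_univ] at h1
    rw [h1]
    have h2 : m (cls t.length q.1 \ CC t) ≤ (2 ^ (t.length + 2) : ℝ)⁻¹ :=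
      (m_mono Set.sdiff_subset).trans (m_cls _ _)
    have h3 : (1 : ℝ) / 2 ^ (t.length + 1) = 1 / 2 ^ ((q :: t).length + 1) +
        (2 ^ (t.length + 2) : ℝ)⁻¹ := by
      simp only [List.length_cons]
      have h4 : (2 : ℝ) ^ (t.length + 1 + 1) = 2 * 2 ^ (t.length + 1) := by ring
      rw [h4]
      field_simp
      norm_num
    linarith

lemma mu_le_half (s : Tree) (v : Set ℕ) : mu s v ≤ 1 / 2 := by
  have h1 := mu_le s v
  have h2 : m (CC s ∩ v) ≤ m (CC s) := m_mono Set.inter_subset_left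
  have h3 := m_CC_le s
  have h4 : (0 : ℝ) ≤ 1 / 2 ^ (s.length + 1) := by positivity
  linarith

/-- a bound for the entries of a node -/
def bd (s : Tree) : ℕ := (s.map Prod.snd).sum

lemma d_eq_zero {n N : ℕ} (h : n ≤ N) {v : Set ℕ} (hv : ∀ i ∈ v, N ≤ i) : d n v = 0 := by
  unfold d
  have : Set.Iio n ∩ v = ∅ := by
    rw [Set.eq_empty_iff_forall_notMem]
    rintro i ⟨hi, hiv⟩
    have h1 := hv i hiv
    have h2 : i < n := hi
    omega
  rw [this]; simp

lemma mu_eq (s : Tree) {N : ℕ} (hN : bd s ≤ N) {v : Set ℕ} (hv : ∀ i ∈ v, N ≤ i) :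
    mu s v = m (CC s ∩ v) := by
  induction s with
  | nil =>
    have h1 : CC [] ∩ v = {i | i < 0} := by ext i; simp [CC]
    rw [h1, m_initial]; rfl
  | cons q t ih =>
    have hb : bd (q :: t) = q.2 + bd t := by simp [bd]
    rw [m_CC_cons]
    simp only [mu]
    rw [ih (by omega), d_eq_zero (N := N) (by omega) (fun i hi => hv i hi.2)]
    ring

/-- every set contains a subset where `mu s` is the full density -/
lemma exists_sub (s : Tree) (v : Set ℕ) : ∃ u ⊆ v, mu s u = m (CC s ∩ v) := by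
  refine ⟨v \ {i | i < bd s}, Set.sdiff_subset, ?_⟩
  rw [mu_eq s (le_refl _) (v := v \ {i | i < bd s}) (by
    rintro i ⟨_, h⟩
    exact not_lt.mp h)]
  have h1 : m (CC s ∩ v) = m (CC s ∩ (v \ {i | i < bd s})) + m (CC s ∩ v ∩ {i | i < bd s}) := by
    rw [← m_union]
    · congr 1
      ext i
      simp only [Set.mem_inter_iff, Set.mem_union, Set.mem_sdiff]
      tauto
    · rw [Set.disjoint_left]
      rintro i ⟨_, _, h2⟩ ⟨_, h3⟩
      exact h2 h3
  have h2 : m (CC s ∩ v ∩ {i | i < bd s}) = 0 :=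
    le_antisymm ((m_mono Set.inter_subset_right).trans (le_of_eq (m_initial _))) (m_nonneg _)
  rw [h1, h2, add_zero]

/-! ### the range space -/

/-- the functions on the tree that are continuous at each node along the ultrafilter -/
def FS : Submodule ℝ (Tree → ℝ) where
  carrier := {f | ∀ (t : Tree) (r : ℕ), Tendsto (fun n => f ((r, n) :: t)) UU (𝓝 (f t))}
  add_mem' := by
    intro f g hf hg t r
    exact (hf t r).add (hg t r)
  zero_mem' := by
    intro t r
    exact tendsto_const_nhds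
  smul_mem' := by
    intro c f hf t r
    exact (hf t r).const_mul c

/-- The range space `F`. -/
def FF : Type := FS

instance instAddFF : AddCommGroup FF := (inferInstance : AddCommGroup FS)
instance instModFF : Module ℝ FF := (inferInstance : Module ℝ FS)

/-- the underlying function -/
def FF.fn (f : FF) : Tree → ℝ := f.1

lemma FF.ext {f g : FF} (h : ∀ s, f.fn s = g.fn s) : f = g := Subtype.ext (funext h)

lemma fn_add (f g : FF) (s : Tree) : (f + g).fn s = f.fn s + g.fn s := rfl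
lemma fn_zero (s : Tree) : (0 : FF).fn s = 0 := rfl
lemma fn_neg (f : FF) (s : Tree) : (-f).fn s = - f.fn s := rfl
lemma fn_smul (c : ℝ) (f : FF) (s : Tree) : (c • f).fn s = c * f.fn s := rfl
lemma fn_nsmul (n : ℕ) (f : FF) (s : Tree) : (n • f).fn s = n * f.fn s := by
  induction n with
  | zero => simp [fn_zero]
  | succ n ih => rw [succ_nsmul, fn_add, ih]; push_cast; ring

instance instLatFF : Lattice FF where
  le f g := ∀ s, f.fn s ≤ g.fn s
  le_refl f s := le_refl _
  le_trans f g h h1 h2 s := (h1 s).trans (h2 s)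
  le_antisymm f g h1 h2 := FF.ext fun s => le_antisymm (h1 s) (h2 s)
  sup f g := ⟨fun s => f.fn s ⊔ g.fn s, fun t r => (f.2 t r).sup_nhds (g.2 t r)⟩
  inf f g := ⟨fun s => f.fn s ⊓ g.fn s, fun t r => (f.2 t r).inf_nhds (g.2 t r)⟩
  le_sup_left f g s := le_sup_left
  le_sup_right f g s := le_sup_right
  sup_le f g h h1 h2 s := sup_le (h1 s) (h2 s)
  inf_le_left f g s := inf_le_left
  inf_le_right f g s := inf_le_right
  le_inf f g h h1 h2 s := le_inf (h1 s) (h2 s)

lemma le_def' (f g : FF) : f ≤ g ↔ ∀ s, f.fn s ≤ g.fn s := Iff.rfl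

instance instOrdFF : IsOrderedAddMonoid FF where
  add_le_add_left f g h k s := by
    rw [fn_add, fn_add]
    exact add_le_add_left (h s) _

instance instPosFF : PosSMulMono ℝ FF where
  smul_le_smul_of_nonneg_left c hc f g h s := by
    rw [fn_smul, fn_smul]
    exact mul_le_mul_of_nonneg_left (h s) hc

lemma arch_FF : ArchRiesz FF := by
  intro x y h s
  rw [fn_zero]
  by_contra hneg
  push Not at hneg
  obtain ⟨n, hn⟩ := exists_nat_gt (y.fn s / x.fn s)
  have h1 := h n s
  rw [fn_nsmul] at h1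
  rw [div_lt_iff₀ hneg] at hn
  linarith

/-- constants -/
def cst (c : ℝ) : FF := ⟨fun _ => c, fun _ _ => tendsto_const_nhds⟩

lemma fn_cst (c : ℝ) (s : Tree) : (cst c).fn s = c := rfl

lemma tendsto_mu (v : Set ℕ) (t : Tree) (r : ℕ) :
    Tendsto (fun n => mu ((r, n) :: t) v) UU (𝓝 (mu t v)) := by
  simp only [mu]
  have h1 := m_spec ((cls t.length r \ CC t) ∩ v)
  have h2 : Tendsto (fun n => mu t v + m ((cls t.length r \ CC t) ∩ v) -
      d n ((cls t.length r \ CC t) ∩ v)) UU
      (𝓝 (mu t v + m ((cls t.length r \ CC t) ∩ v) - m ((cls t.length r \ CC t) ∩ v))) :=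
    h1.const_sub _
  rw [add_sub_cancel_right] at h2
  exact h2

/-! ### the operators -/

/-- the set where a function is one -/
def one (x : ℕ → ℝ) : Set ℕ := {i | x i = 1}

/-- the operator `T` -/
def TT (x : ℕ → ℝ) : FF := ⟨fun s => mu s (one x), fun t r => tendsto_mu _ t r⟩

/-- the join `W` -/
def WW (x : ℕ → ℝ) : FF := cst (m (one x))

/-- the operator `S = 0` -/
def SS (_ : ℕ → ℝ) : FF := 0

lemma fn_TT (x : ℕ → ℝ) (s : Tree) : (TT x).fn s = mu s (one x) := rfl
lemma fn_WW (x : ℕ → ℝ) (s : Tree) : (WW x).fn s = m (one x) := rfl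

lemma disj_iff (x y : ℕ → ℝ) : Disj x y ↔ ∀ i, x i = 0 ∨ y i = 0 := by
  unfold Disj
  constructor
  · intro h i
    have h1 := congrFun h i
    simp only [Pi.inf_apply, Pi.abs_apply, Pi.zero_apply] at h1
    rcases le_total |x i| |y i| with h2 | h2
    · rw [inf_eq_left.mpr h2] at h1
      exact Or.inl (abs_eq_zero.mp h1)
    · rw [inf_eq_right.mpr h2] at h1
      exact Or.inr (abs_eq_zero.mp h1)
  · intro h
    funext i
    simp only [Pi.inf_apply, Pi.abs_apply, Pi.zero_apply]
    rcases h i with h1 | h1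
    · rw [h1, abs_zero]; exact inf_eq_left.mpr (abs_nonneg _)
    · rw [h1, abs_zero]; exact inf_eq_right.mpr (abs_nonneg _)

lemma one_add {x y : ℕ → ℝ} (h : Disj x y) : one (x + y) = one x ∪ one y ∧
    Disjoint (one x) (one y) := by
  rw [disj_iff] at h
  constructor
  · ext i
    simp only [one, Set.mem_ofPred_eq, Pi.add_apply, Set.mem_union]
    rcases h i with h1 | h1 <;> simp [h1]
  · rw [Set.disjoint_left]
    intro i hi hi'
    simp only [one, Set.mem_ofPred_eq] at hi hi'
    rcases h i with h1 | h1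
    · rw [h1] at hi; norm_num at hi
    · rw [h1] at hi'; norm_num at hi'

lemma orth_TT : OrthAdd TT := by
  intro x y h
  obtain ⟨h1, h2⟩ := one_add h
  refine FF.ext fun s => ?_
  rw [fn_add, fn_TT, fn_TT, fn_TT, h1, mu_union s h2]

lemma orth_WW : OrthAdd WW := by
  intro x y h
  obtain ⟨h1, h2⟩ := one_add h
  refine FF.ext fun s => ?_
  rw [fn_add, fn_WW, fn_WW, fn_WW, h1, m_union h2]

lemma orth_SS : OrthAdd SS := by
  intro x y _
  simp [SS]

/-- indicator functions -/
def ind (v : Set ℕ) : ℕ → ℝ := v.indicator 1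

lemma one_ind (v : Set ℕ) : one (ind v) = v := by
  ext i
  simp only [one, ind, Set.mem_ofPred_eq]
  by_cases h : i ∈ v
  · simp [h]
  · simp [h]

lemma ind_union {u v : Set ℕ} (h : Disjoint u v) : ind (u ∪ v) = ind u + ind v ∧
    Disj (ind u) (ind v) := by
  constructor
  · exact Set.indicator_union_of_disjoint h 1
  · rw [disj_iff]
    intro i
    by_cases hu : i ∈ u
    · right
      exact Set.indicator_of_notMem (Set.disjoint_left.mp h hu) _
    · left
      exact Set.indicator_of_notMem hu _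

section LowerBound

variable {D : (ℕ → ℝ) → FF} (hD : OrthAdd D) (h0 : ∀ x, 0 ≤ (D x)) (hT : ∀ x, TT x ≤ D x)

include hD h0 hT

lemma D_union {u v : Set ℕ} (h : Disjoint u v) (s : Tree) :
    (D (ind (u ∪ v))).fn s = (D (ind u)).fn s + (D (ind v)).fn s := by
  obtain ⟨h1, h2⟩ := ind_union h
  rw [h1, hD _ _ h2, fn_add]

lemma D_mono {u v : Set ℕ} (h : u ⊆ v) (s : Tree) : (D (ind u)).fn s ≤ (D (ind v)).fn s := by
  have h1 := D_union hD h0 hT (Set.disjoint_sdiff_right (s := u) (t := v)) s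
  rw [Set.union_sdiff_cancel h] at h1
  have h2 : (0 : FF).fn s ≤ (D (ind (v \ u))).fn s := h0 _ s
  rw [fn_zero] at h2
  linarith

lemma D_CC (s : Tree) (v : Set ℕ) : m (CC s ∩ v) ≤ (D (ind v)).fn s := by
  obtain ⟨u, hu, he⟩ := exists_sub s v
  have h1 := hT (ind u) s
  rw [fn_TT, one_ind, he] at h1
  exact h1.trans (D_mono hD h0 hT hu s)

lemma D_cls (t : Tree) (r : ℕ) (v : Set ℕ) (hv : v ⊆ cls t.length r) :
    m v ≤ (D (ind v)).fn t := by
  have h1 : Tendsto (fun n => (D (ind v)).fn ((r, n) :: t)) UU (𝓝 ((D (ind v)).fn t)) :=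
    (D (ind v)).2 t r
  refine ge_of_tendsto h1 (Eventually.of_forall fun n => ?_)
  have h2 := D_CC hD h0 hT ((r, n) :: t) v
  have h3 : CC ((r, n) :: t) ∩ v = v := by
    refine Set.inter_eq_right.mpr (hv.trans ?_)
    exact Set.subset_union_right
  rwa [h3] at h2

lemma D_sum (t : Tree) (v : Set ℕ) (N : ℕ) :
    m (v ∩ {i | i % 2 ^ (t.length + 2) < N}) ≤
      (D (ind (v ∩ {i | i % 2 ^ (t.length + 2) < N}))).fn t := by
  induction N with
  | zero =>
    have h1 : v ∩ {i | i % 2 ^ (t.length + 2) < 0} = {i | i < 0} := by ext i; simp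
    rw [h1, m_initial]
    exact h0 _ t
  | succ N ih =>
    have h1 : v ∩ {i | i % 2 ^ (t.length + 2) < N + 1} =
        (v ∩ {i | i % 2 ^ (t.length + 2) < N}) ∪ (v ∩ cls t.length N) := by
      ext i
      simp only [Set.mem_inter_iff, Set.mem_ofPred_eq, Set.mem_union, cls]
      constructor
      · rintro ⟨h2, h3⟩
        rcases Nat.lt_succ_iff_lt_or_eq.mp h3 with h4 | h4
        · exact Or.inl ⟨h2, h4⟩
        · exact Or.inr ⟨h2, h4⟩
      · rintro (⟨h2, h3⟩ | ⟨h2, h3⟩)
        · exact ⟨h2, by omega⟩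
        · exact ⟨h2, by omega⟩
    have h2 : Disjoint (v ∩ {i | i % 2 ^ (t.length + 2) < N}) (v ∩ cls t.length N) := by
      rw [Set.disjoint_left]
      rintro i ⟨_, h3⟩ ⟨_, h4⟩
      simp only [cls, Set.mem_ofPred_eq] at h3 h4
      omega
    rw [h1, m_union h2, D_union hD h0 hT h2]
    exact add_le_add ih (D_cls hD h0 hT t N _ Set.inter_subset_right)

lemma D_ge (t : Tree) (v : Set ℕ) : m v ≤ (D (ind v)).fn t := by
  have h1 := D_sum hD h0 hT t v (2 ^ (t.length + 2))
  have h2 : v ∩ {i | i % 2 ^ (t.length + 2) < 2 ^ (t.length + 2)} = v := by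
    refine Set.inter_eq_left.mpr fun i _ => ?_
    exact Nat.mod_lt _ (by positivity)
  rwa [h2] at h1

lemma D_ge_WW (x : ℕ → ℝ) : WW x ≤ D x := by
  intro s
  have h1 : x = ind (one x) + (x - ind (one x)) := by abel
  have h2 : Disj (ind (one x)) (x - ind (one x)) := by
    rw [disj_iff]
    intro i
    by_cases h : i ∈ one x
    · right
      simp only [Pi.sub_apply, ind, Set.indicator_of_mem h, Pi.one_apply]
      have : x i = 1 := h
      rw [this]; norm_num
    · left
      exact Set.indicator_of_notMem h _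
  have h3 := hD _ _ h2
  rw [← h1] at h3
  rw [h3, fn_add, fn_WW]
  have h4 := D_ge hD h0 hT s (one x)
  have h5 : (0 : FF).fn s ≤ (D (x - ind (one x))).fn s := h0 _ s
  rw [fn_zero] at h5
  linarith

end LowerBound

/-- `W = S ∨ T` -/
theorem isJoin : IsJoin SS TT WW := by
  refine ⟨orth_WW, fun x s => ?_, fun x s => ?_, fun D hD h0 hT x => D_ge_WW hD h0 hT x⟩
  · show (0 : FF).fn s ≤ (WW x).fn s
    rw [fn_zero, fn_WW]
    exact m_nonneg _
  · rw [fn_TT, fn_WW]
    exact (mu_le s _).trans (m_mono Set.inter_subset_right)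

lemma m_univ : m Set.univ = 1 := by
  have h1 := m_spec Set.univ
  have h2 : Tendsto (fun n => d n Set.univ) UU (𝓝 1) := by
    refine tendsto_const_nhds.congr' ?_
    have h3 : ∀ᶠ n : ℕ in UU, n ≠ 0 := by
      refine hyperfilter_le_cofinite ?_
      rw [mem_cofinite]
      refine (Set.finite_singleton 0).subset ?_
      intro n hn
      simpa using hn
    filter_upwards [h3] with n hn
    unfold d
    rw [Set.inter_univ, ncard_Iio]
    have : (n : ℝ) ≠ 0 := by exact_mod_cast hn
    field_simp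
  exact tendsto_nhds_unique h1 h2

/-- the constant `1/2` is an upper bound for the split set of any `x` -/
lemma half_bound (x : ℕ → ℝ) : cst (1 / 2) ∈ upperBounds (splitSet SS TT x) := by
  rintro _ ⟨u, v, _, _, rfl⟩ s
  show (SS u + TT v).fn s ≤ 1 / 2
  rw [fn_add, fn_TT]
  have : (SS u).fn s = 0 := rfl
  rw [this, zero_add]
  exact mu_le_half s _

end

end Pool.Agent.R282.OA
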